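import Pool.Agent.Helper27.EX.IDefs
import Pool.Agent.Helper28.EX.ST

set_option autoImplicit false

open Finset
open scoped Classical

namespace OT

noncomputable section

/-! ### DJ : adding stars or single vertices to a stock -/

theorem us_mono {V : Type} [Fintype V] {Δ : ℕ} {D : V → V → Prop} {B C : Finset V} {γ : ℝ}
    {G G₂ : Finset V} {dl dl₂ : V → Bool} {lv lv₂ : V → Fin (Δ + 1) → V} (hG : G ⊆ G₂)
    (h : ∀ u ∈ G, dl₂ u = dl u ∧ lv₂ u = lv u) {u : V} {s k : Bool}
    (hu : Us D B C γ G dl lv u s k) : Us D B C γ G₂ dl₂ lv₂ u s k := by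
  rcases hu with hu | ⟨h1, h2, h3⟩
  · exact Or.inl hu
  · refine Or.inr ⟨hG h1, ?_, fun j => ?_⟩
    · rw [(h u h1).1, h2]
    · rw [(h u h1).2]
      exact h3 j

/-- The vertices and leaves of a stock. -/
def dj_Z {V : Type} {Δ : ℕ} (G K : Finset V) (lv : V → Fin (Δ + 1) → V) : Finset V :=
  G ∪ K ∪ (G ×ˢ (univ : Finset (Fin (Δ + 1)))).image fun p => lv p.1 p.2

theorem dj_card {V : Type} {Δ : ℕ} (G K : Finset V) (lv : V → Fin (Δ + 1) → V) :
    (dj_Z G K lv).card ≤ (Δ + 2) * G.card + K.card := by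
  have h1 : ((G ×ˢ (univ : Finset (Fin (Δ + 1)))).image fun p => lv p.1 p.2).card ≤
      G.card * (Δ + 1) := by
    refine card_image_le.trans ?_
    rw [card_product, card_univ, Fintype.card_fin]
  calc (dj_Z G K lv).card ≤ (G ∪ K).card +
        ((G ×ˢ (univ : Finset (Fin (Δ + 1)))).image fun p => lv p.1 p.2).card :=
        card_union_le _ _
    _ ≤ (G.card + K.card) + G.card * (Δ + 1) := add_le_add (card_union_le _ _) h1
    _ = _ := by ring

theorem dj_mem {V : Type} {Δ : ℕ} {G K : Finset V} {lv : V → Fin (Δ + 1) → V} {u : V}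
    (hu : u ∈ G) (j : Fin (Δ + 1)) : lv u j ∈ dj_Z G K lv :=
  mem_union_right _ (mem_image.2 ⟨(u, j), mem_product.2 ⟨hu, mem_univ _⟩, rfl⟩)

theorem dj_sub {V : Type} {Δ : ℕ} {G K : Finset V} {lv : V → Fin (Δ + 1) → V} :
    G ∪ K ⊆ dj_Z G K lv := subset_union_left

theorem stkAdd {V : Type} [Fintype V] {D : V → V → Prop} {Δ : ℕ} {G K : Finset V}
    {dl : V → Bool} {lv : V → Fin (Δ + 1) → V} (h : Stk D Δ G K dl lv) (s : Bool)
    (S Y : Finset V) (lv' : V → Fin (Δ + 1) → V) (hS : Stars D s (Δ + 1) S Y lv') (m : ℕ)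
    (hm : m + (Δ + 2) * G.card + K.card ≤ S.card) :
    ∃ (S' : Finset V) (dl₂ : V → Bool) (lv₂ : V → Fin (Δ + 1) → V), S' ⊆ S ∧ S'.card = m ∧
      Disjoint S' (G ∪ K) ∧ Stk D Δ (G ∪ S') K dl₂ lv₂ ∧
      (∀ u ∈ G, dl₂ u = dl u ∧ lv₂ u = lv u) ∧ ∀ u ∈ S', dl₂ u = s ∧ lv₂ u = lv' u := by
  set Z := dj_Z G K lv with hZ
  set Bad := S.filter fun u => u ∈ Z ∨ ∃ j, lv' u j ∈ Z with hBad
  -- the bad vertices
  have hbad : Bad.card ≤ Z.card := by
    have hch : ∀ u ∈ Bad, ∃ z ∈ Z, z = u ∨ ∃ j, z = lv' u j := by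
      intro u hu
      rcases (mem_filter.1 hu).2 with h1 | ⟨j, h1⟩
      · exact ⟨u, h1, Or.inl rfl⟩
      · exact ⟨_, h1, Or.inr ⟨j, rfl⟩⟩
    choose! g hg1 hg2 using hch
    refine card_le_card_of_injOn g hg1 fun u hu u' hu' huu => ?_
    have huS := (mem_filter.1 (mem_coe.1 hu)).1
    have huS' := (mem_filter.1 (mem_coe.1 hu')).1
    rcases hg2 u hu with h1 | ⟨j, h1⟩ <;> rcases hg2 u' hu' with h2 | ⟨j', h2⟩
    · rw [← h1, ← h2, huu]
    · exfalso
      have h3 := (hS.adj u' huS' j').2.2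
      rw [← h2, ← huu, h1] at h3
      exact h3 huS
    · exfalso
      have h3 := (hS.adj u huS j).2.2
      rw [← h1, huu, h2] at h3
      exact h3 huS'
    · exact (hS.inj u huS u' huS' j j' (by rw [← h1, ← h2, huu])).1
  have hgood : m ≤ (S \ Bad).card := by
    have h1 : (S \ Bad).card = S.card - Bad.card := card_sdiff_of_subset (filter_subset _ _)
    have h2 := dj_card G K lv
    rw [h1]
    rw [← hZ] at h2
    omega
  obtain ⟨S', hS'sub, hS'card⟩ := exists_subset_card_eq hgood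
  have hS'S : S' ⊆ S := hS'sub.trans sdiff_subset
  have hnz : ∀ u ∈ S', u ∉ Z := by
    intro u hu hz
    have h1 := mem_sdiff.1 (hS'sub hu)
    exact h1.2 (mem_filter.2 ⟨h1.1, Or.inl hz⟩)
  have hnl : ∀ u ∈ S', ∀ j, lv' u j ∉ Z := by
    intro u hu j hz
    have h1 := mem_sdiff.1 (hS'sub hu)
    exact h1.2 (mem_filter.2 ⟨h1.1, Or.inr ⟨j, hz⟩⟩)
  have hnG : ∀ u ∈ S', u ∉ G := fun u hu hg => hnz u hu (dj_sub (mem_union_left _ hg))
  refine ⟨S', fun u => if u ∈ G then dl u else s, fun u => if u ∈ G then lv u else lv' u, hS'S,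
    hS'card, ?_, ⟨?_, ?_, ?_⟩, ?_, ?_⟩
  · rw [disjoint_left]
    exact fun u hu hg => hnz u hu (dj_sub hg)
  · intro u hu j
    by_cases hg : u ∈ G
    · simp only [hg, if_true]
      exact h.adj u hg j
    · simp only [hg, if_false]
      have huS : u ∈ S' := (mem_union.1 hu).resolve_left hg
      exact (hS.adj u (hS'S huS) j).2.1
  · intro u hu j
    by_cases hg : u ∈ G
    · simp only [hg, if_true]
      intro hcon
      rcases mem_union.1 hcon with hcon | hcon
      · rcases mem_union.1 hcon with hcon | hcon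
        · exact h.off u hg j (mem_union_left _ hcon)
        · exact hnz _ hcon (dj_mem hg j)
      · exact h.off u hg j (mem_union_right _ hcon)
    · simp only [hg, if_false]
      have huS : u ∈ S' := (mem_union.1 hu).resolve_left hg
      intro hcon
      rcases mem_union.1 hcon with hcon | hcon
      · rcases mem_union.1 hcon with hcon | hcon
        · exact hnl u huS j (dj_sub (mem_union_left _ hcon))
        · exact (hS.adj u (hS'S huS) j).2.2 (hS'S hcon)
      · exact hnl u huS j (dj_sub (mem_union_right _ hcon))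
  · intro u hu u' hu' j j' heq
    by_cases hg : u ∈ G <;> by_cases hg' : u' ∈ G
    · simp only [hg, hg', if_true] at heq
      exact h.inj u hg u' hg' j j' heq
    · simp only [hg, hg', if_true, if_false] at heq
      have huS : u' ∈ S' := (mem_union.1 hu').resolve_left hg'
      have h5 : lv u j ∈ Z := dj_mem hg j
      rw [heq] at h5
      exact absurd h5 (hnl u' huS j')
    · simp only [hg, hg', if_true, if_false] at heq
      have huS : u ∈ S' := (mem_union.1 hu).resolve_left hg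
      have h5 : lv u' j' ∈ Z := dj_mem hg' j'
      rw [← heq] at h5
      exact absurd h5 (hnl u huS j)
    · simp only [hg, hg', if_false] at heq
      have huS : u ∈ S' := (mem_union.1 hu).resolve_left hg
      have huS' : u' ∈ S' := (mem_union.1 hu').resolve_left hg'
      exact hS.inj u (hS'S huS) u' (hS'S huS') j j' heq
  · intro u hu
    simp only [hu, if_true, and_self]
  · intro u hu
    simp only [hnG u hu, if_false, and_self]

theorem stkConn {V : Type} [Fintype V] {D : V → V → Prop} {Δ : ℕ} {G K : Finset V}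
    {dl : V → Bool} {lv : V → Fin (Δ + 1) → V} (h : Stk D Δ G K dl lv) (A : Finset V) (m : ℕ)
    (hm : m + (Δ + 2) * G.card + K.card ≤ A.card) :
    ∃ K' ⊆ A, K'.card = m ∧ Disjoint K' (G ∪ K) ∧ Stk D Δ G (K ∪ K') dl lv := by
  have hgood : m ≤ (A \ dj_Z G K lv).card := by
    have h1 := le_card_sdiff (dj_Z G K lv) A
    have h2 := dj_card G K lv
    omega
  obtain ⟨K', hK', hcard⟩ := exists_subset_card_eq hgood
  have hnz : ∀ u ∈ K', u ∉ dj_Z G K lv := fun u hu => (mem_sdiff.1 (hK' hu)).2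
  refine ⟨K', hK'.trans sdiff_subset, hcard, ?_, h.adj, ?_, h.inj⟩
  · rw [disjoint_left]
    exact fun u hu hg => hnz u hu (dj_sub hg)
  · intro u hu j hcon
    rcases mem_union.1 hcon with hcon | hcon
    · exact h.off u hu j (mem_union_left _ hcon)
    · rcases mem_union.1 hcon with hcon | hcon
      · exact h.off u hu j (mem_union_right _ hcon)
      · exact hnz _ hcon (dj_mem hu j)

theorem starsA {V : Type} [Fintype V] (d : ℕ) (D : V → V → Prop) (irr : ∀ v, ¬ D v v) (s : Bool)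
    (X Y : Finset V) (Λ : ℝ) (hV : 0 < Fintype.card V)
    (hΛ : Λ * (Fintype.card V : ℝ) ≤ ∑ y ∈ Y, ((X ∩ adjN D (!s) y).card : ℝ)) :
    ∃ (S : Finset V) (lv : V → Fin d → V), S ⊆ X ∧ Stars D s d S Y lv ∧
      Λ ≤ d + 2 * (d + 1) * (S.card : ℝ) := by
  obtain ⟨S, hS, hmax⟩ := Finset.exists_max_image
    (X.powerset.filter fun S => ∃ lv : V → Fin d → V, Stars D s d S Y lv) Finset.card
    ⟨∅, by
      refine mem_filter.2 ⟨by simp, fun v _ => v, ?_, ?_⟩
      · intro u hu; simp at hu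
      · intro u hu; simp at hu⟩
  obtain ⟨hSX, lv, hst⟩ := mem_filter.1 hS
  rw [mem_powerset] at hSX
  refine ⟨S, lv, hSX, hst, ?_⟩
  set Z := S ∪ (S ×ˢ (univ : Finset (Fin d))).image (fun p => lv p.1 p.2) with hZ
  have hZc : Z.card ≤ (d + 1) * S.card := by
    calc Z.card ≤ S.card + ((S ×ˢ (univ : Finset (Fin d))).image (fun p => lv p.1 p.2)).card :=
          card_union_le _ _
      _ ≤ S.card + (S ×ˢ (univ : Finset (Fin d))).card := by
          gcongr; exact card_image_le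
      _ = (d + 1) * S.card := by
          rw [card_product, card_univ, Fintype.card_fin]; ring
  have hZc' : (Z.card : ℝ) ≤ (d + 1) * (S.card : ℝ) := by exact_mod_cast hZc
  have hn : (0 : ℝ) < (Fintype.card V : ℝ) := by exact_mod_cast hV
  have hsmall : ∀ u ∈ X \ Z, (((Y \ Z) ∩ adjN D s u).card : ℝ) ≤ d := by
    intro u hu
    rw [mem_sdiff] at hu
    by_contra hcon
    push Not at hcon
    have hd : d ≤ ((Y \ Z) ∩ adjN D s u).card := by
      have : d < ((Y \ Z) ∩ adjN D s u).card := by exact_mod_cast hcon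
      exact this.le
    obtain ⟨S', lv', h1, h2, h3⟩ := st_extend d D irr s X Y S lv hSX hst Z hZ u hu.1 hu.2 hd
    have := hmax S' (mem_filter.2 ⟨mem_powerset.2 h1, lv', h2⟩)
    omega
  -- double counting
  have hdc : ∑ y ∈ Y \ Z, (X ∩ adjN D (!s) y).card = ∑ u ∈ X, ((Y \ Z) ∩ adjN D s u).card := by
    have h1 : ∀ y, (X ∩ adjN D (!s) y) = X.filter (fun u => Adj D s u y) := by
      intro y
      ext u
      simp only [mem_inter, adjN, mem_filter, mem_univ, true_and]
      rw [st_adj_swap D s u y]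
    have h2 : ∀ u, ((Y \ Z) ∩ adjN D s u) = (Y \ Z).filter (fun y => Adj D s u y) := by
      intro u
      ext y
      simp only [mem_inter, adjN, mem_filter, mem_univ, true_and]
    simp_rw [h1, h2, card_filter]
    rw [sum_comm]
  have hdc' : ∑ y ∈ Y \ Z, ((X ∩ adjN D (!s) y).card : ℝ) =
      ∑ u ∈ X, (((Y \ Z) ∩ adjN D s u).card : ℝ) := by exact_mod_cast hdc
  have hup : ∑ u ∈ X, (((Y \ Z) ∩ adjN D s u).card : ℝ) ≤
      (Z.card : ℝ) * (Fintype.card V : ℝ) + (Fintype.card V : ℝ) * d := by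
    have hsplit : ∑ u ∈ X, (((Y \ Z) ∩ adjN D s u).card : ℝ) =
        ∑ u ∈ X ∩ Z, (((Y \ Z) ∩ adjN D s u).card : ℝ) +
        ∑ u ∈ X \ Z, (((Y \ Z) ∩ adjN D s u).card : ℝ) := by
      rw [← sum_union (disjoint_left.2 fun x hx hx' =>
        (mem_sdiff.1 hx').2 (mem_inter.1 hx).2)]
      congr 1
      ext x
      by_cases h : x ∈ Z <;> simp [h]
    rw [hsplit]
    have hA : ∑ u ∈ X ∩ Z, (((Y \ Z) ∩ adjN D s u).card : ℝ) ≤
        (Z.card : ℝ) * (Fintype.card V : ℝ) := by
      calc ∑ u ∈ X ∩ Z, (((Y \ Z) ∩ adjN D s u).card : ℝ)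
          ≤ ∑ u ∈ X ∩ Z, (Fintype.card V : ℝ) := by
            apply sum_le_sum
            intro u _
            exact_mod_cast card_le_univ _
        _ = ((X ∩ Z).card : ℝ) * (Fintype.card V : ℝ) := by
            rw [sum_const, nsmul_eq_mul]
        _ ≤ _ := by
            apply mul_le_mul_of_nonneg_right _ (by positivity)
            exact_mod_cast card_le_card inter_subset_right
    have hB : ∑ u ∈ X \ Z, (((Y \ Z) ∩ adjN D s u).card : ℝ) ≤ (Fintype.card V : ℝ) * d := by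
      calc ∑ u ∈ X \ Z, (((Y \ Z) ∩ adjN D s u).card : ℝ) ≤ ∑ u ∈ X \ Z, (d : ℝ) :=
            sum_le_sum hsmall
        _ = ((X \ Z).card : ℝ) * d := by rw [sum_const, nsmul_eq_mul]
        _ ≤ _ := by
            apply mul_le_mul_of_nonneg_right _ (Nat.cast_nonneg d)
            exact_mod_cast card_le_univ _
    linarith
  have hYsplit : ∑ y ∈ Y, ((X ∩ adjN D (!s) y).card : ℝ) ≤
      (Z.card : ℝ) * (Fintype.card V : ℝ) + ∑ y ∈ Y \ Z, ((X ∩ adjN D (!s) y).card : ℝ) := by
    have hsplit : ∑ y ∈ Y, ((X ∩ adjN D (!s) y).card : ℝ) =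
        ∑ y ∈ Y ∩ Z, ((X ∩ adjN D (!s) y).card : ℝ) +
        ∑ y ∈ Y \ Z, ((X ∩ adjN D (!s) y).card : ℝ) := by
      rw [← sum_union (disjoint_left.2 fun x hx hx' =>
        (mem_sdiff.1 hx').2 (mem_inter.1 hx).2)]
      congr 1
      ext x
      by_cases h : x ∈ Z <;> simp [h]
    rw [hsplit]
    have hA : ∑ y ∈ Y ∩ Z, ((X ∩ adjN D (!s) y).card : ℝ) ≤
        (Z.card : ℝ) * (Fintype.card V : ℝ) := by
      calc ∑ y ∈ Y ∩ Z, ((X ∩ adjN D (!s) y).card : ℝ)
          ≤ ∑ y ∈ Y ∩ Z, (Fintype.card V : ℝ) := by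
            apply sum_le_sum
            intro u _
            exact_mod_cast card_le_univ _
        _ = ((Y ∩ Z).card : ℝ) * (Fintype.card V : ℝ) := by
            rw [sum_const, nsmul_eq_mul]
        _ ≤ _ := by
            apply mul_le_mul_of_nonneg_right _ (by positivity)
            exact_mod_cast card_le_card inter_subset_right
    linarith
  rw [hdc'] at hYsplit
  have h1 : Λ * (Fintype.card V : ℝ) ≤
      (d + 2 * (d + 1) * (S.card : ℝ)) * (Fintype.card V : ℝ) := by
    have h2 : (Z.card : ℝ) * (Fintype.card V : ℝ) ≤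
        (d + 1) * (S.card : ℝ) * (Fintype.card V : ℝ) := mul_le_mul_of_nonneg_right hZc' hn.le
    nlinarith [hΛ, hYsplit, hup, h2]
  exact le_of_mul_le_mul_right h1 hn

end

end OT
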